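import Pool.Agent.helper44.MDG.Spec

/-!
# Row mg:CPB (helper15) of project MG (helper44): the borders of a cycle
-/

set_option autoImplicit false

namespace Pool.Agent.helper44.MDG

/-- the numbers at a border at `t` -/
private def CPB_D (n t a1 a2 a3 b1 b2 : ℕ) : Prop :=
  7 ≤ t ∧ ((t + 7 ≤ n ∧ ((a1 + 1 = t ∧ a2 + 2 = t ∧ a3 + 3 = t ∧ b1 = t ∧ b2 = t + 1) ∨
      (a1 = t ∧ a2 = t + 1 ∧ a3 = t + 2 ∧ b1 + 1 = t ∧ b2 + 2 = t))) ∨
    (t = n ∧ 14 ≤ n ∧ ((a1 + 1 = t ∧ a2 + 2 = t ∧ a3 + 3 = t ∧ b1 = 0 ∧ b2 = 1) ∨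
      (a1 = 0 ∧ a2 = 1 ∧ a3 = 2 ∧ b1 + 1 = t ∧ b2 + 2 = t))))

private theorem CPB_col (e : Bool) (i : ℕ) : col e (i + 1) = !(col e i) := by
  unfold col
  rcases Nat.mod_two_eq_zero_or_one i with h | h
  · rw [if_neg (by omega), if_pos h]
  · rw [if_pos (by omega), if_neg (by omega), Bool.not_not]

private theorem CPB_mono {n r : ℕ} {s : ℕ → ℕ} {e : Bool} {c : Fin n → Bool}
    (h : CRuns n r s e c) (i j : ℕ) (hij : i ≤ j) (hj : j ≤ r) : s i + 7 * (j - i) ≤ s j := by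
  induction j, hij using Nat.le_induction with
  | base => simp
  | succ j hij ih =>
    have h1 := ih (by omega)
    have h2 := h.len j (by omega)
    omega

private theorem CPB_fact {n r : ℕ} {s : ℕ → ℕ} {e : Bool} {c : Fin n → Bool}
    (h : CRuns n r s e c) (i : ℕ) (hi : i < r) :
    7 ≤ s (i + 1) ∧ 14 ≤ n ∧ ((i + 1 < r ∧ s (i + 1) + 7 ≤ n) ∨ (i + 1 = r ∧ s (i + 1) = n)) := by
  have hr2 : 2 ≤ r := by
    have h1 := h.pos
    have h2 := h.even
    omega
  have h0 := h.s0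
  have hn := h.sr
  have h1 := CPB_mono h 0 (i + 1) (by omega) (by omega)
  have h2 := CPB_mono h (i + 1) r (by omega) le_rfl
  have h3 := CPB_mono h 0 r (by omega) le_rfl
  refine ⟨by omega, by omega, ?_⟩
  rcases Nat.lt_or_ge (i + 1) r with h4 | h4
  · left
    omega
  · right
    have h5 : i + 1 = r := by omega
    rw [h5]
    exact ⟨rfl, hn⟩

private theorem CPB_pair {n r : ℕ} {s : ℕ → ℕ} {e : Bool} {c : Fin n → Bool}
    (h : CRuns n r s e c) (i j : ℕ) (hi : i < r) (hj : j < r) :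
    i = j ∨ s (i + 1) + 7 ≤ s (j + 1) ∨ s (j + 1) + 7 ≤ s (i + 1) := by
  rcases Nat.lt_trichotomy i j with h1 | h1 | h1
  · have := CPB_mono h (i + 1) (j + 1) (by omega) (by omega)
    omega
  · exact Or.inl h1
  · have := CPB_mono h (j + 1) (i + 1) (by omega) (by omega)
    omega

private theorem CPB_loc {n r : ℕ} {s : ℕ → ℕ} {e : Bool} {c : Fin n → Bool}
    (h : CRuns n r s e c) (v : ℕ) : ∀ m, m ≤ r → v < s m → ∃ i, i < m ∧ s i ≤ v ∧ v < s (i + 1) := by
  intro m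
  induction m with
  | zero =>
    intro _ h1
    rw [h.s0] at h1
    omega
  | succ m ih =>
    intro hm h1
    rcases Nat.lt_or_ge v (s m) with h2 | h2
    · obtain ⟨i, h3, h4⟩ := ih (by omega) h2
      exact ⟨i, by omega, h4⟩
    · exact ⟨m, by omega, h2, h1⟩

private theorem CPB_left {n r : ℕ} {s : ℕ → ℕ} {e : Bool} {c : Fin n → Bool}
    (h : CRuns n r s e c) (i : ℕ) (hi : i < r) (v : Fin n) (h1 : s (i + 1) ≤ v.val + 3)
    (h2 : v.val < s (i + 1)) : c v = col e i := by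
  have h3 := h.len i hi
  exact h.colour i hi v (by omega) h2

private theorem CPB_right {n r : ℕ} {s : ℕ → ℕ} {e : Bool} {c : Fin n → Bool}
    (h : CRuns n r s e c) (i : ℕ) (hi : i < r) (v : Fin n)
    (h1 : (s (i + 1) + 7 ≤ n ∧ s (i + 1) ≤ v.val ∧ v.val ≤ s (i + 1) + 2) ∨
      (s (i + 1) = n ∧ v.val ≤ 2)) : c v = !(col e i) := by
  obtain ⟨f1, f2, f3⟩ := CPB_fact h i hi
  rcases f3 with ⟨f3, f4⟩ | ⟨f3, f4⟩
  · have h3 := h.len (i + 1) f3
    rw [← CPB_col]
    exact h.colour (i + 1) f3 v (by omega) (by omega)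
  · have h0 := h.s0
    have h3 := h.len 0 h.pos
    have h4 : c v = col e 0 := h.colour 0 h.pos v (by omega) (by omega)
    rw [h4]
    have h5 := h.even
    have h6 : i % 2 = 1 := by omega
    unfold col
    rw [if_pos rfl, if_neg (by omega), Bool.not_not]

private theorem CPB_border {n r : ℕ} {s : ℕ → ℕ} {e : Bool} {c : Fin n → Bool}
    (h : CRuns n r s e c) (v u : Fin n) (huv : u ∈ NC n v) :
    c u = c v ∨ ∃ i, i < r ∧
      ((v.val + 1 = s (i + 1) ∧ ((s (i + 1) + 7 ≤ n ∧ u.val = s (i + 1)) ∨ (s (i + 1) = n ∧ u.val = 0))) ∨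
       (u.val + 1 = s (i + 1) ∧ ((s (i + 1) + 7 ≤ n ∧ v.val = s (i + 1)) ∨ (s (i + 1) = n ∧ v.val = 0)))) := by
  have hvn := v.2
  have hun := u.2
  have hsr := h.sr
  obtain ⟨k, hk, hk1, hk2⟩ := CPB_loc h v.val r le_rfl (by omega)
  have hcv := h.colour k hk v hk1 hk2
  rcases Nat.lt_or_ge u.val (s k) with g1 | g1
  · -- `u` before the run of `v`
    unfold NC at huv
    simp only [Finset.mem_filter, Finset.mem_univ, true_and] at huv
    have hk0 : k ≠ 0 := by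
      intro hk0
      rw [hk0, h.s0] at g1
      omega
    obtain ⟨i, rfl⟩ : ∃ i, k = i + 1 := ⟨k - 1, by omega⟩
    obtain ⟨f1, f2, f3⟩ := CPB_fact h i (by omega)
    have g := h.len (i + 1) hk
    rcases huv with g2 | g2 | g2 | g2 | g2
    · omega
    · exact Or.inr ⟨i, by omega, Or.inr ⟨by omega, by omega⟩⟩
    · omega
    · -- `u = 0`, `v = n - 1`
      obtain ⟨f1', f2', f3'⟩ := CPB_fact h (i + 1) hk
      exact Or.inr ⟨i + 1, hk, Or.inl ⟨by omega, by omega⟩⟩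
    · omega
  · rcases Nat.lt_or_ge u.val (s (k + 1)) with g3 | g3
    · left
      rw [hcv]
      exact h.colour k hk u g1 g3
    · unfold NC at huv
      simp only [Finset.mem_filter, Finset.mem_univ, true_and] at huv
      obtain ⟨f1, f2, f3⟩ := CPB_fact h k hk
      rcases huv with g2 | g2 | g2 | g2 | g2
      · omega
      · omega
      · exact Or.inr ⟨k, hk, Or.inl ⟨by omega, by omega⟩⟩
      · omega
      · -- `v = 0`, `u = n - 1`
        have hr := h.pos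
        obtain ⟨i, hi⟩ : ∃ i, r = i + 1 := ⟨r - 1, by omega⟩
        refine Or.inr ⟨i, by omega, Or.inr ⟨?_, ?_⟩⟩
        · rw [← hi, hsr]
          omega
        · rw [← hi, hsr]
          omega

private theorem CPB_data {n r : ℕ} {s : ℕ → ℕ} {e : Bool} {c : Fin n → Bool}
    (h : CRuns n r s e c) (p : Bool) (i : ℕ) (hi : i < r) :
    (col e i = p → s (i + 1) + 7 ≤ n → A1 s e p i % n + 1 = s (i + 1) ∧ A2 s e p i % n + 2 = s (i + 1) ∧
      A3 s e p i % n + 3 = s (i + 1) ∧ B1 s e p i % n = s (i + 1) ∧ B2 s e p i % n = s (i + 1) + 1) ∧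
    (col e i ≠ p → s (i + 1) + 7 ≤ n → A1 s e p i % n = s (i + 1) ∧ A2 s e p i % n = s (i + 1) + 1 ∧
      A3 s e p i % n = s (i + 1) + 2 ∧ B1 s e p i % n + 1 = s (i + 1) ∧ B2 s e p i % n + 2 = s (i + 1)) ∧
    (col e i = p → s (i + 1) = n → A1 s e p i % n + 1 = s (i + 1) ∧ A2 s e p i % n + 2 = s (i + 1) ∧
      A3 s e p i % n + 3 = s (i + 1) ∧ B1 s e p i % n = 0 ∧ B2 s e p i % n = 1) ∧
    (col e i ≠ p → s (i + 1) = n → A1 s e p i % n = 0 ∧ A2 s e p i % n = 1 ∧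
      A3 s e p i % n = 2 ∧ B1 s e p i % n + 1 = s (i + 1) ∧ B2 s e p i % n + 2 = s (i + 1)) := by
  obtain ⟨f1, f2, _⟩ := CPB_fact h i hi
  unfold A1 A2 A3 B1 B2
  refine ⟨fun h1 h2 => ?_, fun h1 h2 => ?_, fun h1 h2 => ?_, fun h1 h2 => ?_⟩
  · simp only [if_pos h1]
    rw [Nat.mod_eq_of_lt (by omega : s (i + 1) - 1 < n), Nat.mod_eq_of_lt (by omega : s (i + 1) - 2 < n),
      Nat.mod_eq_of_lt (by omega : s (i + 1) - 3 < n), Nat.mod_eq_of_lt (by omega : s (i + 1) < n),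
      Nat.mod_eq_of_lt (by omega : s (i + 1) + 1 < n)]
    omega
  · simp only [if_neg h1]
    rw [Nat.mod_eq_of_lt (by omega : s (i + 1) - 1 < n), Nat.mod_eq_of_lt (by omega : s (i + 1) - 2 < n),
      Nat.mod_eq_of_lt (by omega : s (i + 1) + 2 < n), Nat.mod_eq_of_lt (by omega : s (i + 1) < n),
      Nat.mod_eq_of_lt (by omega : s (i + 1) + 1 < n)]
    omega
  · simp only [if_pos h1]
    rw [h2, Nat.mod_self, Nat.mod_eq_of_lt (by omega : n - 1 < n),
      Nat.mod_eq_of_lt (by omega : n - 2 < n), Nat.mod_eq_of_lt (by omega : n - 3 < n),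
      Nat.add_mod_left, Nat.mod_eq_of_lt (by omega : 1 < n)]
    omega
  · simp only [if_neg h1]
    rw [h2, Nat.mod_self, Nat.mod_eq_of_lt (by omega : n - 1 < n),
      Nat.mod_eq_of_lt (by omega : n - 2 < n), Nat.add_mod_left, Nat.add_mod_left,
      Nat.mod_eq_of_lt (by omega : 1 < n), Nat.mod_eq_of_lt (by omega : 2 < n)]
    omega

/-- Row CPB. -/
theorem CPB : CPB_stmt := by
  intro n r s e p c h
  obtain ⟨_, hn14, _⟩ := CPB_fact h 0 h.pos
  have hn0 : 0 < n := by omega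
  obtain ⟨a1, ha1⟩ : ∃ a1 : Fin r → Fin n, ∀ i, (a1 i).val = A1 s e p i.val % n :=
    ⟨fun i => ⟨A1 s e p i.val % n, Nat.mod_lt _ hn0⟩, fun _ => rfl⟩
  obtain ⟨a2, ha2⟩ : ∃ a2 : Fin r → Fin n, ∀ i, (a2 i).val = A2 s e p i.val % n :=
    ⟨fun i => ⟨A2 s e p i.val % n, Nat.mod_lt _ hn0⟩, fun _ => rfl⟩
  obtain ⟨a3, ha3⟩ : ∃ a3 : Fin r → Fin n, ∀ i, (a3 i).val = A3 s e p i.val % n :=
    ⟨fun i => ⟨A3 s e p i.val % n, Nat.mod_lt _ hn0⟩, fun _ => rfl⟩
  obtain ⟨b1, hb1⟩ : ∃ b1 : Fin r → Fin n, ∀ i, (b1 i).val = B1 s e p i.val % n :=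
    ⟨fun i => ⟨B1 s e p i.val % n, Nat.mod_lt _ hn0⟩, fun _ => rfl⟩
  obtain ⟨b2, hb2⟩ : ∃ b2 : Fin r → Fin n, ∀ i, (b2 i).val = B2 s e p i.val % n :=
    ⟨fun i => ⟨B2 s e p i.val % n, Nat.mod_lt _ hn0⟩, fun _ => rfl⟩
  refine ⟨a1, a2, a3, b1, b2, ha1, ha2, ha3, hb1, hb2, ?_⟩
  -- the four cases of a border
  have hD : ∀ i : Fin r, (col e i.val = p ∧ s (i.val + 1) + 7 ≤ n ∧ (a1 i).val + 1 = s (i.val + 1) ∧
        (a2 i).val + 2 = s (i.val + 1) ∧ (a3 i).val + 3 = s (i.val + 1) ∧ (b1 i).val = s (i.val + 1) ∧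
        (b2 i).val = s (i.val + 1) + 1) ∨
      (col e i.val = !p ∧ s (i.val + 1) + 7 ≤ n ∧ (a1 i).val = s (i.val + 1) ∧
        (a2 i).val = s (i.val + 1) + 1 ∧ (a3 i).val = s (i.val + 1) + 2 ∧ (b1 i).val + 1 = s (i.val + 1) ∧
        (b2 i).val + 2 = s (i.val + 1)) ∨
      (col e i.val = p ∧ s (i.val + 1) = n ∧ (a1 i).val + 1 = s (i.val + 1) ∧
        (a2 i).val + 2 = s (i.val + 1) ∧ (a3 i).val + 3 = s (i.val + 1) ∧ (b1 i).val = 0 ∧
        (b2 i).val = 1) ∨
      (col e i.val = !p ∧ s (i.val + 1) = n ∧ (a1 i).val = 0 ∧ (a2 i).val = 1 ∧ (a3 i).val = 2 ∧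
        (b1 i).val + 1 = s (i.val + 1) ∧ (b2 i).val + 2 = s (i.val + 1)) := by
    intro i
    rw [ha1 i, ha2 i, ha3 i, hb1 i, hb2 i]
    obtain ⟨d1, d2, d3, d4⟩ := CPB_data h p i.val i.2
    obtain ⟨f1, f2, f3⟩ := CPB_fact h i.val i.2
    have hne : col e i.val ≠ p → col e i.val = !p := by
      cases col e i.val <;> cases p <;> simp
    by_cases hc : col e i.val = p
    · rcases f3 with ⟨_, f3⟩ | ⟨_, f3⟩
      · exact Or.inl ⟨hc, f3, d1 hc f3⟩
      · exact Or.inr (Or.inr (Or.inl ⟨hc, f3, d3 hc f3⟩))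
    · rcases f3 with ⟨_, f3⟩ | ⟨_, f3⟩
      · exact Or.inr (Or.inl ⟨hne hc, f3, d2 hc f3⟩)
      · exact Or.inr (Or.inr (Or.inr ⟨hne hc, f3, d4 hc f3⟩))
  have hE : ∀ i : Fin r, CPB_D n (s (i.val + 1)) (a1 i).val (a2 i).val (a3 i).val (b1 i).val
      (b2 i).val := by
    intro i
    obtain ⟨f1, f2, _⟩ := CPB_fact h i.val i.2
    unfold CPB_D
    rcases hD i with ⟨_, d⟩ | ⟨_, d⟩ | ⟨_, d⟩ | ⟨_, d⟩ <;> omega
  have hP : ∀ i j : Fin r, i = j ∨ s (i.val + 1) + 7 ≤ s (j.val + 1) ∨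
      s (j.val + 1) + 7 ≤ s (i.val + 1) := by
    intro i j
    rcases CPB_pair h i.val j.val i.2 j.2 with g | g
    · exact Or.inl (Fin.ext g)
    · exact Or.inr g
  have hnn : ∀ x : Bool, (!x) ≠ x := by
    intro x
    cases x <;> simp
  have hmem : ∀ v u : Fin n, u ∈ NC n v ↔ (u.val = v.val ∨ u.val + 1 = v.val ∨ v.val + 1 = u.val ∨
      (u.val = 0 ∧ v.val + 1 = n) ∨ (v.val = 0 ∧ u.val + 1 = n)) := by
    intro v u
    unfold NC
    simp
  have hcolL := fun i : Fin r => CPB_left h i.val i.2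
  have hcolR := fun i : Fin r => CPB_right h i.val i.2
  have hFact := fun i : Fin r => CPB_fact h i.val i.2
  have ccA : ∀ (i : Fin r) (v : Fin n), (v = a1 i ∨ v = a2 i ∨ v = a3 i) → c v = p := by
    intro i v hv
    have hv' : v.val = (a1 i).val ∨ v.val = (a2 i).val ∨ v.val = (a3 i).val := by
      rcases hv with rfl | rfl | rfl <;> simp
    obtain ⟨f1, f2, _⟩ := hFact i
    rcases hD i with ⟨hc, d⟩ | ⟨hc, d⟩ | ⟨hc, d⟩ | ⟨hc, d⟩
    · rw [hcolL i v (by omega) (by omega), hc]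
    · rw [hcolR i v (by omega), hc, Bool.not_not]
    · rw [hcolL i v (by omega) (by omega), hc]
    · rw [hcolR i v (by omega), hc, Bool.not_not]
  have ccB : ∀ (i : Fin r) (v : Fin n), (v = b1 i ∨ v = b2 i) → c v = !p := by
    intro i v hv
    have hv' : v.val = (b1 i).val ∨ v.val = (b2 i).val := by
      rcases hv with rfl | rfl <;> simp
    obtain ⟨f1, f2, _⟩ := hFact i
    rcases hD i with ⟨hc, d⟩ | ⟨hc, d⟩ | ⟨hc, d⟩ | ⟨hc, d⟩
    · rw [hcolR i v (by omega), hc]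
    · rw [hcolL i v (by omega) (by omega), hc]
    · rw [hcolR i v (by omega), hc]
    · rw [hcolL i v (by omega) (by omega), hc]
  have hcross : ∀ (v u : Fin n), u ∈ NC n v → c u = c v ∨ ∃ i : Fin r, (v = b1 i ∧ u = a1 i) ∨
      (v = a1 i ∧ u = b1 i) := by
    intro v u huv
    rcases CPB_border h v u huv with g | ⟨i, hi, g⟩
    · exact Or.inl g
    · right
      refine ⟨⟨i, hi⟩, ?_⟩
      have d := hD ⟨i, hi⟩
      have f := hFact ⟨i, hi⟩
      simp only [Fin.ext_iff] at d f ⊢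
      rcases d with ⟨_, d⟩ | ⟨_, d⟩ | ⟨_, d⟩ | ⟨_, d⟩ <;> omega
  refine
    { self := ?_, ca1 := ?_, ca2 := ?_, ca3 := ?_, cb1 := ?_, Na1 := ?_, Na2 := ?_, Nb1 := ?_,
      Na3 := ?_, Na3' := ?_, a31 := ?_, a11 := ?_, a22 := ?_, b11 := ?_, a12 := ?_, b21 := ?_,
      b22 := ?_, cb2 := ?_, opn := ?_, ownn := ?_, sep := ?_ }
  · intro v
    rw [hmem]
    exact Or.inl rfl
  · exact fun i => ccA i _ (Or.inl rfl)
  · exact fun i => ccA i _ (Or.inr (Or.inl rfl))
  · exact fun i => ccA i _ (Or.inr (Or.inr rfl))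
  · exact fun i => ccB i _ (Or.inl rfl)
  · intro i
    ext u
    rw [hmem]
    simp only [Finset.mem_insert, Finset.mem_singleton, Fin.ext_iff]
    have d := hE i
    have hu := u.2
    unfold CPB_D at d
    omega
  · intro i
    ext u
    rw [hmem]
    simp only [Finset.mem_insert, Finset.mem_singleton, Fin.ext_iff]
    have d := hE i
    have hu := u.2
    unfold CPB_D at d
    omega
  · intro i
    ext u
    rw [hmem]
    simp only [Finset.mem_insert, Finset.mem_singleton, Fin.ext_iff]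
    have d := hE i
    have hu := u.2
    unfold CPB_D at d
    omega
  · intro i
    rw [hmem]
    have d := hE i
    unfold CPB_D at d
    omega
  · intro i j
    rw [hmem, hmem, hmem]
    have d := hE i
    have d' := hE j
    unfold CPB_D at d d'
    rcases hP i j with rfl | g
    · refine ⟨by omega, by omega, fun _ => rfl⟩
    · refine ⟨by omega, by omega, fun _ => by omega⟩
  · intro i j
    rw [Ne, Ne, Fin.ext_iff, Fin.ext_iff]
    have d := hE i
    have d' := hE j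
    unfold CPB_D at d d'
    rcases hP i j with rfl | g <;> omega
  · intro i j hij
    rw [Fin.ext_iff] at hij
    have d := hE i
    have d' := hE j
    unfold CPB_D at d d'
    rcases hP i j with g | g
    · exact g
    · omega
  · intro i j hij
    rw [Fin.ext_iff] at hij
    have d := hE i
    have d' := hE j
    unfold CPB_D at d d'
    rcases hP i j with g | g
    · exact g
    · omega
  · intro i j hij
    rw [Fin.ext_iff] at hij
    have d := hE i
    have d' := hE j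
    unfold CPB_D at d d'
    rcases hP i j with g | g
    · exact g
    · omega
  · intro i j
    rw [Ne, Fin.ext_iff]
    have d := hE i
    have d' := hE j
    unfold CPB_D at d d'
    rcases hP i j with rfl | g <;> omega
  · intro i j
    rw [Ne, Fin.ext_iff]
    have d := hE i
    have d' := hE j
    unfold CPB_D at d d'
    rcases hP i j with rfl | g <;> omega
  · intro i j hij
    rw [Fin.ext_iff] at hij
    have d := hE i
    have d' := hE j
    unfold CPB_D at d d'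
    rcases hP i j with g | g
    · exact g
    · omega
  · exact fun i => ccB i _ (Or.inr rfl)
  · intro v u hv huv
    rcases hcross v u huv with g | ⟨i, ⟨g1, g2⟩ | ⟨g1, g2⟩⟩
    · left
      rw [g, hv]
    · exact Or.inr ⟨i, g1, g2⟩
    · exfalso
      have := ccA i v (Or.inl g1)
      rw [hv] at this
      exact hnn p this
  · intro v u hv huv
    rcases hcross v u huv with g | ⟨i, ⟨g1, g2⟩ | ⟨g1, g2⟩⟩
    · left
      rw [g, hv]
    · exfalso
      have := ccB i v (Or.inl g1)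
      rw [hv] at this
      exact hnn p this.symm
    · exact Or.inr ⟨i, g1, g2⟩
  · intro v i j _ h1 h2
    rw [hmem, hmem] at h1 h2
    have d := hE i
    have d' := hE j
    have hv := v.2
    unfold CPB_D at d d'
    rcases hP i j with g | g
    · exact g
    · omega

end Pool.Agent.helper44.MDG
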